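import Pool.Agent.U409.OA.Stm3

set_option autoImplicit false

/-! Project OA, package CR: one row of the counting model. -/

namespace Pool.Agent.U450.OA

open Finset Pool.Agent.U409.OA

theorem adm_iff (r c r' c' : Bool) : adm r c r' c' = true ↔ bz r' - bz r = bz c' - bz c := by
  cases r <;> cases c <;> cases r' <;> cases c' <;> simp [adm, bz]

theorem bz_dec {x : ℤ} (h : x = 0 ∨ x = 1) : bz (decide (x = 1)) = x := by
  rcases h with h | h <;> subst h <;> simp [bz]

theorem dec_bz (s : Bool) : decide (bz s = 1) = s := by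
  cases s <;> simp [bz]

theorem bz_01 (s : Bool) : bz s = 0 ∨ bz s = 1 := by
  cases s <;> simp [bz]

theorem sum_Iic_zero {N : ℕ} (e : Fin (N + 1) → ℤ) : ∑ j ∈ Iic (0 : Fin (N + 1)), e j = e 0 := by
  have h : Iic (0 : Fin (N + 1)) = {0} := by
    ext j
    simp
  rw [h, sum_singleton]

theorem sum_Iic_succ {N : ℕ} (e : Fin (N + 1) → ℤ) (k : Fin N) :
    ∑ j ∈ Iic k.succ, e j = e 0 + ∑ j ∈ Iic k, e j.succ := by
  have h1 : Iic k.succ = univ.filter fun j : Fin (N + 1) => j ≤ k.succ := by
    ext j; simp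
  have h2 : Iic k = univ.filter fun j : Fin N => j ≤ k := by
    ext j; simp
  rw [h1, h2, sum_filter, sum_filter, Fin.sum_univ_succ]
  simp [Fin.succ_le_succ_iff]

theorem mem_succ {N : ℕ} (r : Bool) (c : Fin (N + 1) → Bool) (e : Fin (N + 1) → ℤ) :
    e ∈ Ev (N + 1) r c ↔ (bz r + e 0 = 0 ∨ bz r + e 0 = 1) ∧
      (bz (c 0) + e 0 = 0 ∨ bz (c 0) + e 0 = 1) ∧
      (fun j : Fin N => e j.succ) ∈ Ev N (decide (bz r + e 0 = 1)) (fun j => c j.succ) := by
  constructor
  · rintro ⟨h1, h2⟩
    have h3 := h1 0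
    rw [sum_Iic_zero] at h3
    refine ⟨h3, h2 0, fun k => ?_, fun j => h2 j.succ⟩
    have h4 := h1 k.succ
    rw [sum_Iic_succ] at h4
    rw [bz_dec h3]
    rw [← add_assoc] at h4
    exact h4
  · rintro ⟨h3, h4, h5, h6⟩
    refine ⟨fun k => ?_, fun j => ?_⟩
    · refine Fin.cases ?_ (fun k => ?_) k
      · rw [sum_Iic_zero]; exact h3
      · have h7 := h5 k
        rw [bz_dec h3] at h7
        rw [sum_Iic_succ, ← add_assoc]
        exact h7
    · refine Fin.cases h4 (fun j => ?_) j
      exact h6 j

theorem ev_finite (N : ℕ) (r : Bool) (c : Fin N → Bool) : (Ev N r c).Finite := by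
  refine Set.Finite.subset
    (Fintype.piFinset fun _ : Fin N => ({-1, 0, 1} : Finset ℤ)).finite_toSet ?_
  rintro e ⟨-, h⟩
  simp only [Finset.mem_coe, Fintype.mem_piFinset]
  intro j
  have h1 := h j
  have h2 := bz_01 (c j)
  simp only [mem_insert, mem_singleton]
  omega

theorem row_eq (R : Type) [CommRing R] : ∀ (N : ℕ) (r : Bool) (c : Fin N → Bool)
    (k : Bool → List Bool → R),
    row (L := Unit) (fun _ _ r c r' c' => if adm r c r' c' then (1 : R) else 0) ()
      (List.replicate N ()) r (List.ofFn c) k =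
    ∑ e ∈ (ev_finite N r c).toFinset, k (decide (bz r + ∑ j, e j = 1))
      (List.ofFn fun j => decide (bz (c j) + e j = 1)) := by
  intro N
  induction N with
  | zero =>
    intro r c k
    have h1 : (ev_finite 0 r c).toFinset = {fun j => j.elim0} := by
      ext e
      rw [Set.Finite.mem_toFinset, mem_singleton]
      constructor
      · intro _; funext j; exact j.elim0
      · intro _; exact ⟨fun k => k.elim0, fun j => j.elim0⟩
    rw [h1, sum_singleton]
    simp [row, dec_bz]
  | succ N ih =>
    intro r c k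
    rw [List.replicate_succ, List.ofFn_succ]
    unfold row
    simp_rw [ih]
    -- the left side as a sum over a sigma type
    have hL : ∀ r' c' : Bool, (if adm r (c 0) r' c' then (1 : R) else 0) *
        ∑ e ∈ (ev_finite N r' fun i => c i.succ).toFinset,
          k (decide (bz r' + ∑ j, e j = 1))
            (c' :: List.ofFn fun j => decide (bz (c j.succ) + e j = 1)) =
        if adm r (c 0) r' c' then ∑ e ∈ (ev_finite N r' fun i => c i.succ).toFinset,
          k (decide (bz r' + ∑ j, e j = 1))
            (c' :: List.ofFn fun j => decide (bz (c j.succ) + e j = 1)) else 0 := by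
      intro r' c'
      split_ifs <;> simp
    simp_rw [hL]
    rw [← Fintype.sum_prod_type' (f := fun r' c' : Bool => if adm r (c 0) r' c' then
      ∑ e ∈ (ev_finite N r' fun i => c i.succ).toFinset,
          k (decide (bz r' + ∑ j, e j = 1))
            (c' :: List.ofFn fun j => decide (bz (c j.succ) + e j = 1)) else 0)]
    rw [← sum_filter, sum_sigma']
    refine sum_bij' (fun x _ => Fin.cons (bz x.1.1 - bz r) x.2)
      (fun e _ => ⟨(decide (bz r + e 0 = 1), decide (bz (c 0) + e 0 = 1)), fun j => e j.succ⟩)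
      ?_ ?_ ?_ ?_ ?_
    · rintro ⟨⟨r', c'⟩, e⟩ hx
      simp only [mem_sigma, mem_filter, mem_univ, true_and, Set.Finite.mem_toFinset] at hx
      obtain ⟨h1, h2⟩ := hx
      rw [adm_iff] at h1
      rw [Set.Finite.mem_toFinset, mem_succ]
      simp only [Fin.cons_zero, Fin.cons_succ]
      have e1 : bz r + (bz r' - bz r) = bz r' := by ring
      have e2 : bz (c 0) + (bz r' - bz r) = bz c' := by rw [h1]; ring
      rw [e1, e2, dec_bz]
      exact ⟨bz_01 _, bz_01 _, h2⟩
    · intro e he
      rw [Set.Finite.mem_toFinset, mem_succ] at he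
      obtain ⟨h1, h2, h3⟩ := he
      simp only [mem_sigma, mem_filter, mem_univ, true_and, Set.Finite.mem_toFinset]
      refine ⟨?_, h3⟩
      rw [adm_iff, bz_dec h1, bz_dec h2]
      ring
    · rintro ⟨⟨r', c'⟩, e⟩ hx
      simp only [mem_sigma, mem_filter, mem_univ, true_and, Set.Finite.mem_toFinset] at hx
      obtain ⟨h1, h2⟩ := hx
      rw [adm_iff] at h1
      simp only [Fin.cons_zero, Fin.cons_succ]
      have e1 : bz r + (bz r' - bz r) = bz r' := by ring
      have e2 : bz (c 0) + (bz r' - bz r) = bz c' := by rw [h1]; ring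
      rw [e1, e2, dec_bz, dec_bz]
    · intro e he
      rw [Set.Finite.mem_toFinset, mem_succ] at he
      obtain ⟨h1, h2, h3⟩ := he
      funext j
      refine Fin.cases ?_ (fun j => ?_) j
      · simp only [Fin.cons_zero]
        rw [bz_dec h1]; ring
      · simp only [Fin.cons_succ]
    · rintro ⟨⟨r', c'⟩, e⟩ hx
      simp only [mem_sigma, mem_filter, mem_univ, true_and, Set.Finite.mem_toFinset] at hx
      obtain ⟨h1, h2⟩ := hx
      rw [adm_iff] at h1
      rw [List.ofFn_succ, Fin.sum_univ_succ]
      simp only [Fin.cons_zero, Fin.cons_succ]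
      have e1 : bz r + (bz r' - bz r + ∑ j, e j) = bz r' + ∑ j, e j := by ring
      have e2 : bz (c 0) + (bz r' - bz r) = bz c' := by rw [h1]; ring
      rw [e1, e2, dec_bz]

theorem t_CR : S_CR := fun N r c => ⟨ev_finite N r c, fun R _ k => row_eq R N r c k⟩

end Pool.Agent.U450.OA
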